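import Mathlib

namespace Pool.Agent.Results.MP_375cbb_nt.Full

open PowerSeries

/-- `e^z - ∑_{k < b} z^k / k!` -/
noncomputable def tailExp (b : ℕ) : PowerSeries ℚ :=
  exp ℚ - ∑ k ∈ Finset.range b, C (1 / (k.factorial : ℚ)) * X ^ k

/-- `B` is the sequence of hypergeometric Bernoulli numbers `B_n^{(b)}`:
`(∑ B_n z^n / n!) (e^z - ∑_{k < b} z^k / k!) = z^b / b!`. -/
def IsHypBern (b : ℕ) (B : ℕ → ℚ) : Prop :=
  (mk fun n => B n / (n.factorial : ℚ)) * tailExp b = C (1 / (b.factorial : ℚ)) * X ^ b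

/-- rational numbers with odd denominator -/
def Od (x : ℚ) : Prop := x.den % 2 = 1

theorem odd_of_dvd {a b : ℕ} (h : a ∣ b) (hb : b % 2 = 1) : a % 2 = 1 := by
  obtain ⟨c, rfl⟩ := h
  rcases Nat.mod_two_eq_zero_or_one a with h | h
  · rw [Nat.mul_mod, h] at hb
    simp at hb
  · exact h

theorem Od.add {x y : ℚ} (hx : Od x) (hy : Od y) : Od (x + y) := by
  apply odd_of_dvd (Rat.add_den_dvd x y)
  rw [Nat.mul_mod, hx, hy]

theorem Od.mul {x y : ℚ} (hx : Od x) (hy : Od y) : Od (x * y) := by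
  apply odd_of_dvd (Rat.mul_den_dvd x y)
  rw [Nat.mul_mod, hx, hy]

theorem Od.neg {x : ℚ} (hx : Od x) : Od (-x) := by
  unfold Od
  rw [Rat.neg_den]
  exact hx

theorem Od.sum {s : Finset ℕ} {f : ℕ → ℚ} (h : ∀ i ∈ s, Od (f i)) : Od (∑ i ∈ s, f i) := by
  classical
  induction s using Finset.induction_on with
  | empty => simp [Od]
  | insert a s ha ih =>
    rw [Finset.sum_insert ha]
    exact (h a (Finset.mem_insert_self a s)).add
      (ih fun i hi => h i (Finset.mem_insert_of_mem hi))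

theorem Od.div_nat (a d : ℕ) (hd : d % 2 = 1) : Od ((a : ℚ) / d) := by
  have h1 : ((a : ℚ) / d).den ∣ d := by
    have := Rat.den_dvd (a : ℤ) (d : ℤ)
    rw [Rat.divInt_eq_div] at this
    push_cast at this
    exact_mod_cast this
  exact odd_of_dvd h1 hd

theorem not_Od_inv (d : ℕ) (hd0 : d ≠ 0) (hd : d % 2 = 0) : ¬ Od ((1 : ℚ) / d) := by
  unfold Od
  rw [one_div, Rat.inv_natCast_den_of_pos (Nat.pos_of_ne_zero hd0)]
  omega

/-! ### binomial coefficients -/

theorem val_add (b j k : ℕ) (hb : 2 ^ k ∣ b) (hj : 0 < j) (hjk : j < 2 ^ k) :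
    padicValNat 2 (b + j) = padicValNat 2 j := by
  have : Fact (Nat.Prime 2) := ⟨Nat.prime_two⟩
  have h1 : ∀ t, 2 ^ t ∣ b + j ↔ 2 ^ t ∣ j := by
    intro t
    rcases Nat.lt_or_ge t k with h | h
    · rw [Nat.dvd_add_right (dvd_trans (pow_dvd_pow 2 h.le) hb)]
    · constructor
      · intro h2
        exfalso
        have h3 : 2 ^ k ∣ b + j := dvd_trans (pow_dvd_pow 2 h) h2
        rw [Nat.dvd_add_right hb] at h3
        exact absurd (Nat.le_of_dvd hj h3) (by omega)
      · intro h2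
        exfalso
        exact absurd (Nat.le_of_dvd hj (dvd_trans (pow_dvd_pow 2 h) h2)) (by omega)
  have h2 : ∀ x : ℕ, x ≠ 0 → ∀ t, 2 ^ t ∣ x ↔ t ≤ padicValNat 2 x := fun x hx t =>
    padicValNat_dvd_iff_le hx
  have a1 := (h2 (b + j) (by omega) _).mpr (le_refl (padicValNat 2 (b + j)))
  have a2 := (h2 j (by omega) _).mpr (le_refl (padicValNat 2 j))
  rw [h1] at a1
  rw [← h1] at a2
  exact le_antisymm ((h2 j (by omega) _).mp a1) ((h2 (b + j) (by omega) _).mp a2)

theorem val_choose_succ (b j : ℕ) : padicValNat 2 (b + j + 1) + padicValNat 2 ((b + j).choose j) =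
    padicValNat 2 ((b + (j + 1)).choose (j + 1)) + padicValNat 2 (j + 1) := by
  have : Fact (Nat.Prime 2) := ⟨Nat.prime_two⟩
  have h := Nat.add_one_mul_choose_eq (b + j) j
  have h1 : (b + j).choose j ≠ 0 := (Nat.choose_pos (by omega)).ne'
  have h2 : (b + (j + 1)).choose (j + 1) ≠ 0 := (Nat.choose_pos (by omega)).ne'
  rw [← padicValNat.mul (by omega) h1, ← padicValNat.mul h2 (by omega)]
  congr 1

theorem val_choose (b k : ℕ) (hb : 2 ^ k ∣ b) (j : ℕ) (hj : j < 2 ^ k) :
    padicValNat 2 ((b + j).choose j) = 0 := by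
  induction j with
  | zero => simp
  | succ j ih =>
    have h1 := ih (by omega)
    have h2 := val_choose_succ b j
    have h3 := val_add b (j + 1) k hb (by omega) hj
    rw [show b + j + 1 = b + (j + 1) by ring, h3, h1] at h2
    omega

theorem choose_odd (b k : ℕ) (hb : 2 ^ k ∣ b) (j : ℕ) (hj : j < 2 ^ k) :
    ((b + j).choose j) % 2 = 1 := by
  have : Fact (Nat.Prime 2) := ⟨Nat.prime_two⟩
  have h1 := val_choose b k hb j hj
  have h0 : (b + j).choose j ≠ 0 := (Nat.choose_pos (by omega)).ne'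
  by_contra h
  have h2 : 2 ^ 1 ∣ (b + j).choose j := by
    rw [pow_one]
    omega
  rw [padicValNat_dvd_iff_le h0] at h2
  omega

theorem choose_even (b k : ℕ) (hb : 2 ^ k ∣ b) (hb2 : ¬ 2 ^ (k + 1) ∣ b) :
    ((b + 2 ^ k).choose (2 ^ k)) % 2 = 0 := by
  have : Fact (Nat.Prime 2) := ⟨Nat.prime_two⟩
  obtain ⟨c, rfl⟩ := hb
  have hc : c % 2 = 1 := by
    by_contra h
    apply hb2
    obtain ⟨d, hd⟩ : ∃ d, c = 2 * d := ⟨c / 2, by omega⟩
    exact ⟨d, by rw [hd, pow_succ]; ring⟩
  obtain ⟨j, hj⟩ : ∃ j, 2 ^ k = j + 1 := ⟨2 ^ k - 1, by have := Nat.one_le_two_pow (n := k); omega⟩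
  have h1 := val_choose_succ (2 ^ k * c) j
  have h2 := val_choose (2 ^ k * c) k (dvd_mul_right _ _) j (by omega)
  rw [← hj, h2, padicValNat.prime_pow] at h1
  have h0 : (2 ^ k * c + 2 ^ k).choose (2 ^ k) ≠ 0 := (Nat.choose_pos (by omega)).ne'
  have h3 : k + 1 ≤ padicValNat 2 (2 ^ k * c + j + 1) := by
    rw [← padicValNat_dvd_iff_le (by omega)]
    obtain ⟨d, hd⟩ : ∃ d, c + 1 = 2 * d := ⟨(c + 1) / 2, by omega⟩
    refine ⟨d, ?_⟩
    rw [add_assoc, ← hj, pow_succ]
    calc 2 ^ k * c + 2 ^ k = 2 ^ k * (c + 1) := by ring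
      _ = _ := by rw [hd]; ring
  have h4 : 2 ^ 1 ∣ (2 ^ k * c + 2 ^ k).choose (2 ^ k) := by
    rw [padicValNat_dvd_iff_le h0]
    omega
  rw [pow_one] at h4
  omega

/-! ### the recurrence -/

theorem tailExp_eq (b : ℕ) : tailExp b =
    X ^ b * mk fun j => 1 / ((b + j).factorial : ℚ) := by
  ext n
  rw [tailExp, map_sub, coeff_exp, map_sum]
  simp only [coeff_C_mul, coeff_X_pow]
  rw [coeff_X_pow_mul']
  simp only [mul_ite, mul_one, mul_zero, Finset.sum_ite_eq, Finset.mem_range, coeff_mk]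
  rcases Nat.lt_or_ge n b with h | h
  · rw [if_pos h, if_neg (by omega)]
    simp
  · rw [if_neg (by omega), if_pos h, Nat.add_sub_cancel' h]
    simp

theorem isHypBern_iff (b : ℕ) (B : ℕ → ℚ) : IsHypBern b B ↔
    (mk fun n => B n / (n.factorial : ℚ)) * (mk fun j => 1 / ((b + j).factorial : ℚ)) =
      C (1 / (b.factorial : ℚ)) := by
  rw [IsHypBern, tailExp_eq]
  have hX : (X ^ b : PowerSeries ℚ) ≠ 0 := pow_ne_zero _ X_ne_zero
  constructor
  · intro h
    apply mul_left_cancel₀ hX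
    linear_combination h
  · intro h
    linear_combination X ^ b * h

theorem rec_B (b : ℕ) (B : ℕ → ℚ) (h : IsHypBern b B) (n : ℕ) :
    ∑ j ∈ Finset.range (n + 1), ((n.choose j : ℚ) / ((b + j).choose j)) * B (n - j) =
      if n = 0 then 1 else 0 := by
  rw [isHypBern_iff] at h
  have h1 := congrArg (coeff n) h
  rw [mul_comm, coeff_mul, Finset.Nat.sum_antidiagonal_eq_sum_range_succ
    (fun i j => coeff i (mk fun j => 1 / ((b + j).factorial : ℚ)) *
      coeff j (mk fun n => B n / (n.factorial : ℚ))), coeff_C] at h1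
  simp only [coeff_mk] at h1
  have hf : ∀ m : ℕ, (m.factorial : ℚ) ≠ 0 := fun m => by positivity
  have h2 : ∑ j ∈ Finset.range (n + 1), ((n.choose j : ℚ) / ((b + j).choose j)) * B (n - j) =
      (n.factorial * b.factorial : ℚ) * ∑ k ∈ Finset.range (n + 1),
        1 / ((b + k).factorial : ℚ) * (B (n - k) / ((n - k).factorial : ℚ)) := by
    rw [Finset.mul_sum]
    apply Finset.sum_congr rfl
    intro j hj
    rw [Finset.mem_range] at hj
    have e1 : (n.choose j : ℚ) = n.factorial / (j.factorial * (n - j).factorial) :=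
      Nat.cast_choose ℚ (by omega)
    have e2 : ((b + j).choose j : ℚ) = (b + j).factorial / (j.factorial * b.factorial) := by
      have := Nat.cast_choose ℚ (show j ≤ b + j by omega)
      rw [this, Nat.add_sub_cancel]
    rw [e1, e2]
    have := hf n
    have := hf j
    have := hf b
    have := hf (b + j)
    have := hf (n - j)
    field_simp
  rw [h2, h1]
  split_ifs with h0
  · subst h0
    have := hf b
    simp
    field_simp
  · ring

theorem B_zero (b : ℕ) (B : ℕ → ℚ) (h : IsHypBern b B) : B 0 = 1 := by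
  have := rec_B b B h 0
  simpa using this

theorem B_rec (b : ℕ) (B : ℕ → ℚ) (h : IsHypBern b B) (n : ℕ) (hn : 1 ≤ n) :
    B n = -∑ j ∈ Finset.range n, ((n.choose (j + 1) : ℚ) / ((b + (j + 1)).choose (j + 1))) *
      B (n - (j + 1)) := by
  have := rec_B b B h n
  rw [Finset.sum_range_succ', if_neg (by omega)] at this
  simp at this
  linarith

theorem B_odd (b k : ℕ) (hb : 2 ^ k ∣ b) (B : ℕ → ℚ) (h : IsHypBern b B) (n : ℕ)
    (hn : n < 2 ^ k) : Od (B n) := by
  induction n using Nat.strong_induction_on with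
  | _ n ih =>
    rcases Nat.eq_zero_or_pos n with rfl | h0
    · rw [B_zero b B h]; rfl
    · rw [B_rec b B h n h0]
      apply Od.neg
      apply Od.sum
      intro j hj
      rw [Finset.mem_range] at hj
      exact (Od.div_nat _ _ (choose_odd b k hb (j + 1) (by omega))).mul
        (ih (n - (j + 1)) (by omega) (by omega))

theorem B_even (b k : ℕ) (hb : 2 ^ k ∣ b) (hb2 : ¬ 2 ^ (k + 1) ∣ b) (B : ℕ → ℚ)
    (h : IsHypBern b B) : ¬ Od (B (2 ^ k)) := by
  intro hO
  obtain ⟨m, hm⟩ : ∃ m, 2 ^ k = m + 1 := ⟨2 ^ k - 1, by have := Nat.one_le_two_pow (n := k); omega⟩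
  have h1 := B_rec b B h (2 ^ k) (by omega)
  have h2 : Od (∑ j ∈ Finset.range m, (((2 ^ k).choose (j + 1) : ℚ) /
      ((b + (j + 1)).choose (j + 1))) * B (2 ^ k - (j + 1))) := by
    apply Od.sum
    intro j hj
    rw [Finset.mem_range] at hj
    exact (Od.div_nat _ _ (choose_odd b k hb (j + 1) (by omega))).mul
      (B_odd b k hb B h (2 ^ k - (j + 1)) (by omega))
  have h3 : (1 : ℚ) / ((b + 2 ^ k).choose (2 ^ k) : ℕ) = -(B (2 ^ k) +
      ∑ j ∈ Finset.range m, (((2 ^ k).choose (j + 1) : ℚ) /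
      ((b + (j + 1)).choose (j + 1))) * B (2 ^ k - (j + 1))) := by
    rw [h1]
    have e : Finset.range (2 ^ k) = Finset.range (m + 1) := by rw [hm]
    rw [e, Finset.sum_range_succ, ← hm, Nat.choose_self, Nat.sub_self, B_zero b B h]
    push_cast
    ring
  refine not_Od_inv ((b + 2 ^ k).choose (2 ^ k)) (Nat.choose_pos (by omega)).ne'
    (choose_even b k hb hb2) ?_
  rw [h3]
  exact (hO.add h2).neg

theorem exists_unique (b : ℕ) : ∃! B : ℕ → ℚ, IsHypBern b B := by
  have hf : ∀ m : ℕ, (m.factorial : ℚ) ≠ 0 := fun m => by positivity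
  set g : PowerSeries ℚ := mk fun j => 1 / ((b + j).factorial : ℚ) with hg
  have hg0 : constantCoeff g ≠ 0 := by
    rw [← coeff_zero_eq_constantCoeff_apply, hg, coeff_mk, add_zero]
    exact one_div_ne_zero (hf b)
  refine ⟨fun n => (n.factorial : ℚ) * coeff n (C (1 / (b.factorial : ℚ)) * g⁻¹), ?_, ?_⟩
  · show IsHypBern b _
    rw [isHypBern_iff]
    have e : (mk fun n => (n.factorial : ℚ) * coeff n (C (1 / (b.factorial : ℚ)) * g⁻¹) /
        (n.factorial : ℚ)) = C (1 / (b.factorial : ℚ)) * g⁻¹ := by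
      ext n
      rw [coeff_mk]
      have := hf n
      field_simp
    rw [e, ← hg, mul_assoc, PowerSeries.inv_mul_cancel _ hg0, mul_one]
  · intro B hB
    have h1 := (isHypBern_iff b B).mp hB
    rw [← hg] at h1
    have h2 : (mk fun n => B n / (n.factorial : ℚ)) = C (1 / (b.factorial : ℚ)) * g⁻¹ := by
      rw [← h1, mul_assoc, PowerSeries.mul_inv_cancel _ hg0, mul_one]
    funext n
    have h3 := congrArg (coeff n) h2
    rw [coeff_mk] at h3
    show B n = (n.factorial : ℚ) * _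
    rw [← h3]
    have := hf n
    field_simp

/-- For every `b ≥ 1` the hypergeometric Bernoulli numbers `B_n^{(b)}` are well defined and the
least index `n` for which the denominator of `B_n^{(b)}` (in lowest terms) is even exists and
equals `ν_2(b) + 1` if `4 ∤ b` and `2^{ν_2(b)}` if `4 ∣ b`. -/
theorem result : ∀ b : ℕ, 1 ≤ b → (∃! B : ℕ → ℚ, IsHypBern b B) ∧
    ∀ B : ℕ → ℚ, IsHypBern b B →
      IsLeast {n : ℕ | Even (B n).den}
        (if b % 4 = 0 then 2 ^ padicValNat 2 b else padicValNat 2 b + 1) := by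
  intro b hb
  refine ⟨exists_unique b, ?_⟩
  intro B hB
  have : Fact (Nat.Prime 2) := ⟨Nat.prime_two⟩
  have hb0 : b ≠ 0 := by omega
  have key : IsLeast {n : ℕ | Even (B n).den} (2 ^ padicValNat 2 b) := by
    have h1 : 2 ^ padicValNat 2 b ∣ b := pow_padicValNat_dvd
    have h2 : ¬ 2 ^ (padicValNat 2 b + 1) ∣ b := pow_succ_padicValNat_not_dvd hb0
    constructor
    · have := B_even b _ h1 h2 B hB
      unfold Od at this
      show Even _
      rw [Nat.even_iff]
      omega
    · intro n hn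
      by_contra h
      have h3 := B_odd b _ h1 B hB n (by omega)
      unfold Od at h3
      have h4 : Even (B n).den := hn
      rw [Nat.even_iff] at h4
      omega
  by_cases h4 : b % 4 = 0
  · rw [if_pos h4]
    exact key
  · rw [if_neg h4]
    have h5 : padicValNat 2 b < 2 := by
      by_contra h
      have : 2 ^ 2 ∣ b := (padicValNat_dvd_iff_le hb0).mpr (by omega)
      omega
    have h6 : padicValNat 2 b + 1 = 2 ^ padicValNat 2 b := by
      interval_cases padicValNat 2 b <;> norm_num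
    rw [h6]
    exact key

end Pool.Agent.Results.MP_375cbb_nt.Full
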